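import Pool.Agent.helper60.RF.SpecB

/-!
# RF (MP_16912e_nt), block B: row SQO, the ring of integers of the golden field modulo a squarefree integer
-/

set_option autoImplicit false

namespace Pool.Agent.RF

open NumberField

theorem SQO : SQO_stmt := by
  intro D hD h5 t ht
  obtain ⟨s, hs⟩ := ht
  have hre : t.re ^ 2 + t.im ^ 2 = D * s.re := by
    have h1 := congrArg QuadraticAlgebra.re hs
    simp only [pow_two, QuadraticAlgebra.re_mul, QuadraticAlgebra.re_intCast, QuadraticAlgebra.im_intCast, Int.cast_id] at h1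
    linarith
  have him : 2 * t.re * t.im + t.im ^ 2 = D * s.im := by
    have h1 := congrArg QuadraticAlgebra.im hs
    simp only [pow_two, QuadraticAlgebra.im_mul, QuadraticAlgebra.re_intCast, QuadraticAlgebra.im_intCast, Int.cast_id] at h1
    linarith
  have hcop : IsCoprime D (5 : ℤ) := by
    have hp : Prime (5 : ℤ) := by norm_num
    exact ((Prime.coprime_iff_not_dvd hp).2 h5).symm
  have h4 : D ∣ 5 * t.im ^ 4 := by
    refine ⟨4 * t.im ^ 2 * s.re - (2 * t.re * t.im - t.im ^ 2) * s.im, ?_⟩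
    linear_combination 4 * t.im ^ 2 * hre - (2 * t.re * t.im - t.im ^ 2) * him
  have h6 : D ∣ t.im := (hD.dvd_pow_iff_dvd (by norm_num : (4 : ℕ) ≠ 0)).1 (hcop.dvd_of_dvd_mul_left h4)
  have h7 : D ∣ t.re ^ 2 := by
    have h8 : t.re ^ 2 = D * s.re - t.im ^ 2 := by linarith
    rw [h8]
    exact dvd_sub (Dvd.intro _ rfl) (dvd_pow h6 two_ne_zero)
  have h9 : D ∣ t.re := (hD.dvd_pow_iff_dvd (two_ne_zero)).1 h7
  obtain ⟨a, ha⟩ := h9
  obtain ⟨b, hb⟩ := h6
  refine ⟨⟨a, b⟩, ?_⟩
  ext
  · simp only [QuadraticAlgebra.re_mul, QuadraticAlgebra.re_intCast, QuadraticAlgebra.im_intCast, Int.cast_id]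
    linarith
  · simp only [QuadraticAlgebra.im_mul, QuadraticAlgebra.re_intCast, QuadraticAlgebra.im_intCast, Int.cast_id]
    linarith

end Pool.Agent.RF
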